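import Mathlib
import Pool.Agent.N42.DQ.Real4
import Pool.Agent.U424.DQ.Stm

/-!
# Constant suitable signs on finitely many intervals, general types (part REALG; helper186)

The general theorem is `Pool.Agent.N42.DQ.gen` (helper42).
-/

set_option autoImplicit false
set_option linter.all false

namespace Pool.Agent.U186.DQ

open Finset Pool.Agent.N718.DC Pool.Agent.U424.DQ
open Pool.Agent.N546.PN (Typ)

/-- the sign patterns of a type -/
def GT {ι : Type} {e : ι → ℕ} (T : Typ ι e) (v : ι → ℝ) : Prop := (∀ k, v k ≠ 0) ∧ T.S ℝ v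

theorem patT {ι : Type} {e : ι → ℕ} (T : Typ ι e) : Pool.Agent.N42.DQ.Pat (GT T) := by
  constructor
  · exact fun v h => h.1
  · intro v w h hvw
    refine ⟨fun k => right_ne_zero_of_mul (hvw k).ne', ?_⟩
    have hq : ∀ k, 0 < w k / v k := fun k => by
      have h1 := h.1 k
      have h2 : w k / v k = v k * w k / (v k ^ 2) := by
        field_simp
      rw [h2]
      exact div_pos (hvw k) (by positivity)
    have h1 := T.sq ℝ v (fun k => Real.sqrt (w k / v k)) (fun k => (Real.sqrt_pos.2 (hq k)).ne') h.2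
    have h2 : (fun k => v k * Real.sqrt (w k / v k) ^ 2) = w := by
      funext k
      rw [Real.sq_sqrt (hq k).le, mul_div_cancel₀ _ (h.1 k)]
    rw [h2] at h1
    exact h1

theorem realg_ (h : S_ORTHO) : S_REALG := by
  classical
  intro ι _ _ e T U hU η hη
  obtain ⟨Z, H₀, hZ, hH⟩ := Pool.Agent.N42.DQ.gen h e (GT T) (patT T) U hU η hη
  refine ⟨Z, H₀, hZ, fun H hH' => le_trans (Nat.cast_le.2 (card_le_card ?_)) (hH H hH')⟩
  intro c hc
  obtain ⟨h1, ⟨z, hz, h2⟩, h3⟩ := mem_filter.1 hc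
  refine mem_filter.2 ⟨h1, ⟨z, hz, h2.1, h2.2⟩, ?_⟩
  rintro ⟨w, hw, s, hs1, hs2, hs3⟩
  exact h3 ⟨w, hw, s, ⟨hs1, hs2.2⟩, hs3⟩

end Pool.Agent.U186.DQ
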